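import Pool.Agent.N223.PS.Def

/-!
# Project PS (helper223): the boundary of an L-shaped polyomino (helper711)
-/

set_option autoImplicit false
set_option linter.unusedVariables false
set_option linter.unusedSectionVars false

namespace Pool.Agent.N711.PS

open Pool.Agent.N223.PS
open scoped Classical

/-- the boundary path -/
def Q (s₁ s₂ t₁ t₂ : ℤ) (k : ℤ) : ℤ × ℤ :=
  if k ≤ s₁ then (k, 0)
  else if k ≤ s₁ + t₂ then (s₁, k - s₁)
  else if k ≤ 2 * s₁ + t₂ - t₁ then (2 * s₁ + t₂ - k, t₂)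
  else if k ≤ 2 * s₁ + s₂ - t₁ then (t₁, k + t₁ - 2 * s₁)
  else if k ≤ 2 * s₁ + s₂ then (2 * s₁ + s₂ - k, s₂)
  else (0, 2 * s₁ + 2 * s₂ - k)

section

variable {s₁ s₂ t₁ t₂ : ℤ} (h1 : 1 ≤ t₁) (h2 : t₁ < s₁) (h3 : 1 ≤ t₂) (h4 : t₂ < s₂)
include h1 h2 h3 h4

theorem Q_nb {k : ℤ} (hk : 0 ≤ k) (hk' : k < 2 * (s₁ + s₂)) :
    Nb (Q s₁ s₂ t₁ t₂ k) (Q s₁ s₂ t₁ t₂ (k + 1)) := by
  unfold Nb Q
  split_ifs <;> simp only [Int.abs_eq_natAbs] <;> omega

theorem Q_inj {k l : ℤ} (hk : 0 ≤ k) (hk' : k < 2 * (s₁ + s₂)) (hl : 0 ≤ l)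
    (hl' : l < 2 * (s₁ + s₂)) (h : Q s₁ s₂ t₁ t₂ k = Q s₁ s₂ t₁ t₂ l) : k = l := by
  have e1 := congrArg Prod.fst h
  have e2 := congrArg Prod.snd h
  clear h
  unfold Q at e1 e2
  split_ifs at e1 e2 <;> simp only at e1 e2 <;> omega

theorem Q_clo : Q s₁ s₂ t₁ t₂ (2 * (s₁ + s₂)) = 0 := by
  unfold Q
  rw [if_neg (by omega), if_neg (by omega), if_neg (by omega), if_neg (by omega),
    if_neg (by omega)]
  ext
  · rfl
  · simp
    ring

theorem Q_zero : Q s₁ s₂ t₁ t₂ 0 = 0 := by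
  unfold Q
  rw [if_pos (by omega)]
  rfl

theorem Q_bd {k : ℤ} (hk : 0 ≤ k) (hk' : k ≤ 2 * (s₁ + s₂)) :
    0 ≤ (Q s₁ s₂ t₁ t₂ k).1 ∧ (Q s₁ s₂ t₁ t₂ k).1 ≤ s₁ ∧ 0 ≤ (Q s₁ s₂ t₁ t₂ k).2 ∧
      (Q s₁ s₂ t₁ t₂ k).2 ≤ s₂ := by
  unfold Q
  split_ifs <;> simp only <;> omega

theorem Q_ab {k a b : ℤ} (hk : 0 ≤ k) (hk' : k < 2 * (s₁ + s₂)) :
    ((((Q s₁ s₂ t₁ t₂ k).1 = a ∧ (Q s₁ s₂ t₁ t₂ (k + 1)).1 = a + 1) ∨
      ((Q s₁ s₂ t₁ t₂ k).1 = a + 1 ∧ (Q s₁ s₂ t₁ t₂ (k + 1)).1 = a)) ∧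
      b < (Q s₁ s₂ t₁ t₂ k).2) ↔
    ((k = a ∧ a < s₁ ∧ b < 0) ∨ (k = 2 * s₁ + t₂ - 1 - a ∧ t₁ ≤ a ∧ a < s₁ ∧ b < t₂) ∨
      (k = 2 * s₁ + s₂ - 1 - a ∧ 0 ≤ a ∧ a < t₁ ∧ b < s₂)) := by
  unfold Q
  split_ifs <;> simp only <;> omega

end

section

variable {s₁ s₂ t₁ t₂ : ℕ} (h1 : 1 ≤ t₁) (h2 : t₁ < s₁) (h3 : 1 ≤ t₂) (h4 : t₂ < s₂)
include h1 h2 h3 h4

theorem ab_iff {a b : ℤ} {k : ℕ} (hk : k < 2 * (s₁ + s₂)) :
    Pool.Agent.N223.PS.Ab (fun k : ℕ => Q s₁ s₂ t₁ t₂ k) a b k ↔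
    (((k : ℤ) = a ∧ a < s₁ ∧ b < 0) ∨
      ((k : ℤ) = 2 * s₁ + t₂ - 1 - a ∧ t₁ ≤ a ∧ a < s₁ ∧ b < t₂) ∨
      ((k : ℤ) = 2 * s₁ + s₂ - 1 - a ∧ 0 ≤ a ∧ a < t₁ ∧ b < s₂)) := by
  have h := Q_ab (s₁ := s₁) (s₂ := s₂) (t₁ := t₁) (t₂ := t₂) (by omega) (by omega) (by omega)
    (by omega) (k := (k : ℤ)) (a := a) (b := b) (by omega) (by omega)
  rw [← h]
  unfold Pool.Agent.N223.PS.Ab
  push_cast
  rfl

theorem en_iff (c : ℤ × ℤ) : En (2 * (s₁ + s₂)) (fun k : ℕ => Q s₁ s₂ t₁ t₂ k) c ↔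
    ((0 ≤ c.1 ∧ c.1 < t₁ ∧ 0 ≤ c.2 ∧ c.2 < s₂) ∨ (t₁ ≤ c.1 ∧ c.1 < s₁ ∧ 0 ≤ c.2 ∧ c.2 < t₂)) := by
  obtain ⟨a, b⟩ := c
  unfold En ab
  have hf : ∀ S : Finset ℕ, (∀ k : ℕ, k ∈ S ↔ k < 2 * (s₁ + s₂) ∧ (((k : ℤ) = a ∧ a < s₁ ∧ b < 0) ∨
      ((k : ℤ) = 2 * s₁ + t₂ - 1 - a ∧ t₁ ≤ a ∧ a < s₁ ∧ b < t₂) ∨
      ((k : ℤ) = 2 * s₁ + s₂ - 1 - a ∧ 0 ≤ a ∧ a < t₁ ∧ b < s₂))) →
      (Finset.range (2 * (s₁ + s₂))).filter
        (fun k => Pool.Agent.N223.PS.Ab (fun k : ℕ => Q s₁ s₂ t₁ t₂ k) a b k) = S := by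
    intro S hS
    ext k
    rw [Finset.mem_filter, Finset.mem_range, hS]
    constructor
    · rintro ⟨hk, h⟩
      exact ⟨hk, (ab_iff h1 h2 h3 h4 hk).1 h⟩
    · rintro ⟨hk, h⟩
      exact ⟨hk, (ab_iff h1 h2 h3 h4 hk).2 h⟩
  by_cases ha : 0 ≤ a ∧ a < s₁
  · by_cases hb : b < 0
    · by_cases hc : a < t₁
      · rw [hf {a.toNat, (2 * s₁ + s₂ - 1 - a).toNat}]
        · rw [Finset.card_pair (by omega)]
          constructor
          · intro h
            exact absurd h (by decide)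
          · intro h
            exfalso
            simp only at h
            omega
        · intro k
          simp only [Finset.mem_insert, Finset.mem_singleton]
          omega
      · rw [hf {a.toNat, (2 * s₁ + t₂ - 1 - a).toNat}]
        · rw [Finset.card_pair (by omega)]
          constructor
          · intro h
            exact absurd h (by decide)
          · intro h
            exfalso
            simp only at h
            omega
        · intro k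
          simp only [Finset.mem_insert, Finset.mem_singleton]
          omega
    · by_cases hc : a < t₁
      · by_cases hd : b < s₂
        · rw [hf {(2 * s₁ + s₂ - 1 - a).toNat}]
          · rw [Finset.card_singleton]
            exact iff_of_true (by decide) (by simp only; omega)
          · intro k
            simp only [Finset.mem_singleton]
            omega
        · rw [hf ∅]
          · rw [Finset.card_empty]
            exact iff_of_false (by decide) (by simp only; omega)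
          · intro k
            exact iff_of_false (Finset.notMem_empty _) (by omega)
      · by_cases hd : b < t₂
        · rw [hf {(2 * s₁ + t₂ - 1 - a).toNat}]
          · rw [Finset.card_singleton]
            exact iff_of_true (by decide) (by simp only; omega)
          · intro k
            simp only [Finset.mem_singleton]
            omega
        · rw [hf ∅]
          · rw [Finset.card_empty]
            exact iff_of_false (by decide) (by simp only; omega)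
          · intro k
            exact iff_of_false (Finset.notMem_empty _) (by omega)
  · rw [hf ∅]
    · rw [Finset.card_empty]
      exact iff_of_false (by decide) (by simp only; omega)
    · intro k
      exact iff_of_false (Finset.notMem_empty _) (by omega)

theorem area : ar (2 * (s₁ + s₂)) (fun k : ℕ => Q s₁ s₂ t₁ t₂ k) = s₁ * t₂ + t₁ * (s₂ - t₂) := by
  unfold ar
  rw [Nat.subtype_card ((Finset.Ico (0 : ℤ) t₁ ×ˢ Finset.Ico (0 : ℤ) s₂) ∪
    (Finset.Ico (t₁ : ℤ) s₁ ×ˢ Finset.Ico (0 : ℤ) t₂))]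
  · rw [Finset.card_union_of_disjoint]
    · simp only [Finset.card_product, Int.card_Ico]
      obtain ⟨d, rfl⟩ := Nat.exists_eq_add_of_lt h2
      obtain ⟨e, rfl⟩ := Nat.exists_eq_add_of_lt h4
      have e1 : ((t₁ : ℤ) - 0).toNat = t₁ := by omega
      have e2 : (((t₂ + e + 1 : ℕ) : ℤ) - 0).toNat = t₂ + e + 1 := by omega
      have e3 : (((t₁ + d + 1 : ℕ) : ℤ) - t₁).toNat = d + 1 := by omega
      have e4 : ((t₂ : ℤ) - 0).toNat = t₂ := by omega
      have e5 : t₂ + e + 1 - t₂ = e + 1 := by omega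
      rw [e1, e2, e3, e4, e5]
      ring
    · rw [Finset.disjoint_left]
      rintro ⟨a, b⟩ h5 h6
      simp only [Finset.mem_product, Finset.mem_Ico] at h5 h6
      omega
  · intro c
    rw [en_iff h1 h2 h3 h4]
    simp only [Finset.mem_union, Finset.mem_product, Finset.mem_Ico]
    tauto

end

theorem lshape : S_LS := by
  intro s₁ s₂ t₁ t₂ h1 h2 h3 h4
  refine ⟨fun k : ℕ => Q s₁ s₂ t₁ t₂ k, ⟨by omega, ?_, ?_, ?_⟩, ?_, ?_, ⟨s₁, by omega, ?_⟩,
    ⟨2 * s₁ + s₂, by omega, ?_⟩, area h1 h2 h3 h4⟩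
  · intro i hi
    have h := Q_nb (s₁ := s₁) (s₂ := s₂) (t₁ := t₁) (t₂ := t₂) (by omega) (by omega) (by omega)
      (by omega) (k := (i : ℤ)) (by omega) (by omega)
    simpa using h
  · intro i hi j hj h
    have h := Q_inj (s₁ := s₁) (s₂ := s₂) (t₁ := t₁) (t₂ := t₂) (by omega) (by omega) (by omega)
      (by omega) (k := (i : ℤ)) (l := (j : ℤ)) (by omega) (by omega) (by omega) (by omega) h
    omega
  · have e1 := Q_clo (s₁ := s₁) (s₂ := s₂) (t₁ := t₁) (t₂ := t₂) (by omega) (by omega) (by omega)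
      (by omega)
    have e2 := Q_zero (s₁ := s₁) (s₂ := s₂) (t₁ := t₁) (t₂ := t₂) (by omega) (by omega)
      (by omega) (by omega)
    refine Eq.trans ?_ (e1.trans e2.symm)
    push_cast
    rfl
  · exact Q_zero (s₁ := s₁) (s₂ := s₂) (t₁ := t₁) (t₂ := t₂) (by omega) (by omega)
      (by omega) (by omega)
  · intro k hk
    exact Q_bd (s₁ := s₁) (s₂ := s₂) (t₁ := t₁) (t₂ := t₂) (by omega) (by omega) (by omega)
      (by omega) (k := (k : ℤ)) (by omega) (by omega)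
  · simp [Q]
  · simp only [Q]
    rw [if_neg (by omega), if_neg (by omega), if_neg (by omega), if_neg (by omega),
      if_pos (by push_cast; omega)]

end Pool.Agent.N711.PS
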